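import Pool.Agent.H508T.Block
import Pool.Agent.H508T.Closing

/-! # A polyomino tiling no bounded part of which tiles a torus

We answer Grunbaum's question in the negative. -/

namespace Pool.Agent.Results.MP_df5726_co.NoToroidalPatch

open Pool.Agent.H508T

set_option linter.constructorNameAsVariable false

/-- Two cells are adjacent when they share an edge. -/
def Adj (p q : ℤ × ℤ) : Prop :=
  (p.1 = q.1 ∧ (q.2 = p.2 + 1 ∨ p.2 = q.2 + 1)) ∨
    (p.2 = q.2 ∧ (q.1 = p.1 + 1 ∨ p.1 = q.1 + 1))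

/-- A polyomino: a nonempty finite edge-connected set of cells. -/
def IsPolyomino (P : Finset (ℤ × ℤ)) : Prop :=
  P.Nonempty ∧ ∀ p ∈ P, ∀ q ∈ P,
    Relation.ReflTransGen (fun a b => b ∈ P ∧ Adj a b) p q

/-- The action on cells of the isometries of the plane that map the grid onto itself:
`(x, y) ↦ (e x + a, d y + b)` or `(x, y) ↦ (e y + a, d x + b)`, with signs `e`, `d`. -/
def gridIso (s : Bool) (e d a b : ℤ) (p : ℤ × ℤ) : ℤ × ℤ :=
  if s then (e * p.2 + a, d * p.1 + b) else (e * p.1 + a, d * p.2 + b)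

/-- `Q` is a copy of `P`. -/
def IsCopy (P Q : Finset (ℤ × ℤ)) : Prop :=
  ∃ (s : Bool) (e d a b : ℤ), (e = 1 ∨ e = -1) ∧ (d = 1 ∨ d = -1) ∧
    Q = P.image (gridIso s e d a b)

/-- `T` is a tiling of the plane by copies of `P`. -/
def IsTiling (P : Finset (ℤ × ℤ)) (T : Set (Finset (ℤ × ℤ))) : Prop :=
  (∀ Q ∈ T, IsCopy P Q) ∧ ∀ z : ℤ × ℤ, ∃! Q, Q ∈ T ∧ z ∈ Q

/-- `F` is a fundamental domain of the lattice `nℤ × mℤ`: its translates by the vectors of the
lattice tile the plane. -/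
def IsFundamentalDomain (n m : ℕ) (F : Finset (ℤ × ℤ)) : Prop :=
  ∀ z : ℤ × ℤ, ∃! k : ℤ × ℤ, (z.1 - n * k.1, z.2 - m * k.2) ∈ F

/-! ### The tiles -/

/-- the polyomino placed at `k`, `w` -/
noncomputable def phys (k : ℕ) (w : ℤ × ℤ) : Finset (ℤ × ℤ) :=
  (pl k w).toFinset.biUnion fun c => C.image fun p => (p.1 + (L c).1, p.2 + (L c).2)

theorem mem_phys (k : ℕ) (w z : ℤ × ℤ) :
    z ∈ phys k w ↔ ∃ c ∈ pl k w, inC (z.1 - (L c).1) (z.2 - (L c).2) := by
  simp only [phys, Finset.mem_biUnion, List.mem_toFinset, Finset.mem_image]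
  constructor
  · rintro ⟨c, hc, p, hp, rfl⟩
    refine ⟨c, hc, ?_⟩
    rw [mem_C] at hp
    simpa using hp
  · rintro ⟨c, hc, h⟩
    refine ⟨c, hc, (z.1 - (L c).1, z.2 - (L c).2), ?_, ?_⟩
    · rw [mem_C]; exact h
    · ext <;> simp

theorem mem_phys' (k : ℕ) (w z : ℤ × ℤ) :
    z ∈ phys k w ↔ ∃ p ∈ P0, inC (z.1 - (166 * ((rot k p).1 + w.1) - 2 * ((rot k p).2 + w.2)))
      (z.2 - (2 * ((rot k p).1 + w.1) + 166 * ((rot k p).2 + w.2))) := by
  rw [mem_phys]
  simp only [pl, List.mem_map]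
  constructor
  · rintro ⟨c, ⟨p, hp, rfl⟩, h⟩
    exact ⟨p, hp, h⟩
  · rintro ⟨p, hp, h⟩
    exact ⟨_, ⟨p, hp, rfl⟩, h⟩

theorem phys_copy (k : ℕ) (w : ℤ × ℤ) : IsCopy (phys 0 (0, 0)) (phys k w) := by
  match k with
  | 0 =>
    refine ⟨false, 1, 1, 166 * w.1 - 2 * w.2, 2 * w.1 + 166 * w.2, Or.inl rfl, Or.inl rfl, ?_⟩
    ext z
    simp only [Finset.mem_image, gridIso]
    rw [mem_phys']
    constructor
    · rintro ⟨p, hp, h⟩
      refine ⟨(z.1 - (166 * w.1 - 2 * w.2), z.2 - (2 * w.1 + 166 * w.2)), ?_, ?_⟩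
      · rw [mem_phys']
        refine ⟨p, hp, ?_⟩
        convert h using 1 <;> simp only [rot] <;> ring
      · ext <;> simp
    · rintro ⟨q, hq, rfl⟩
      rw [mem_phys'] at hq
      obtain ⟨p, hp, h⟩ := hq
      refine ⟨p, hp, ?_⟩
      convert h using 1 <;> simp [rot] <;> ring
  | 1 =>
    refine ⟨true, -1, 1, 165 + (166 * w.1 - 2 * w.2), 2 * w.1 + 166 * w.2, Or.inr rfl,
      Or.inl rfl, ?_⟩
    ext z
    simp only [Finset.mem_image, gridIso]
    rw [mem_phys']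
    constructor
    · rintro ⟨p, hp, h⟩
      refine ⟨(z.2 - (2 * w.1 + 166 * w.2), 165 + (166 * w.1 - 2 * w.2) - z.1), ?_, ?_⟩
      · rw [mem_phys']
        refine ⟨p, hp, ?_⟩
        rw [inC_rot]
        convert h using 1 <;> simp only [rot] <;> ring
      · ext <;> simp
    · rintro ⟨q, hq, rfl⟩
      rw [mem_phys'] at hq
      obtain ⟨p, hp, h⟩ := hq
      refine ⟨p, hp, ?_⟩
      rw [inC_rot] at h
      convert h using 1 <;> simp [rot] <;> ring
  | 2 =>
    refine ⟨false, -1, -1, 165 + (166 * w.1 - 2 * w.2), 165 + (2 * w.1 + 166 * w.2), Or.inr rfl,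
      Or.inr rfl, ?_⟩
    ext z
    simp only [Finset.mem_image, gridIso]
    rw [mem_phys']
    constructor
    · rintro ⟨p, hp, h⟩
      refine ⟨(165 + (166 * w.1 - 2 * w.2) - z.1, 165 + (2 * w.1 + 166 * w.2) - z.2), ?_, ?_⟩
      · rw [mem_phys']
        refine ⟨p, hp, ?_⟩
        rw [inC_rot, inC_rot]
        convert h using 1 <;> simp only [rot] <;> ring
      · ext <;> simp
    · rintro ⟨q, hq, rfl⟩
      rw [mem_phys'] at hq
      obtain ⟨p, hp, h⟩ := hq
      refine ⟨p, hp, ?_⟩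
      rw [inC_rot, inC_rot] at h
      convert h using 1 <;> simp [rot] <;> ring
  | (n + 3) =>
    refine ⟨true, 1, -1, 166 * w.1 - 2 * w.2, 165 + (2 * w.1 + 166 * w.2), Or.inl rfl,
      Or.inr rfl, ?_⟩
    ext z
    simp only [Finset.mem_image, gridIso]
    rw [mem_phys']
    constructor
    · rintro ⟨p, hp, h⟩
      refine ⟨(165 + (2 * w.1 + 166 * w.2) - z.2, z.1 - (166 * w.1 - 2 * w.2)), ?_, ?_⟩
      · rw [mem_phys']
        refine ⟨p, hp, ?_⟩
        rw [inC_rot, inC_rot, inC_rot]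
        convert h using 1 <;> simp only [rot] <;> ring
      · ext <;> simp
    · rintro ⟨q, hq, rfl⟩
      rw [mem_phys'] at hq
      obtain ⟨p, hp, h⟩ := hq
      refine ⟨p, hp, ?_⟩
      rw [inC_rot, inC_rot, inC_rot] at h
      convert h using 1 <;> simp [rot] <;> ring

/-! ### The tiling -/

/-- the tile of node `n` at the supersite `z` -/
noncomputable def tile (n : ℕ) (z : ℤ × ℤ) : Finset (ℤ × ℤ) :=
  phys (code n (bitK (eL n) z.1) (bitK (fL n) z.2)).1
    ((code n (bitK (eL n) z.1) (bitK (fL n) z.2)).2.1 + (16 * z.1 - 3 * z.2),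
      (code n (bitK (eL n) z.1) (bitK (fL n) z.2)).2.2 + (3 * z.1 + 16 * z.2))

theorem mem_tile (n : ℕ) (z p : ℤ × ℤ) :
    p ∈ tile n z ↔ ∃ c ∈ cK bitK n z, inC (p.1 - (L (sh c z)).1) (p.2 - (L (sh c z)).2) := by
  unfold tile
  rw [mem_phys]
  simp only [cK, cl, pl, List.mem_map]
  constructor
  · rintro ⟨c, ⟨q, hq, rfl⟩, h⟩
    refine ⟨_, ⟨q, hq, rfl⟩, ?_⟩
    simp only [sh, add_assoc]
    exact h
  · rintro ⟨c, ⟨q, hq, rfl⟩, h⟩
    refine ⟨_, ⟨q, hq, rfl⟩, ?_⟩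
    simp only [sh, add_assoc] at h
    exact h

theorem L_uniq (p c c' : ℤ × ℤ) (h : inC (p.1 - (L c).1) (p.2 - (L c).2))
    (h' : inC (p.1 - (L c').1) (p.2 - (L c').2)) : c = c' := by
  obtain ⟨a, b⟩ := inC_uniq p.1 p.2 c.1 c.2 c'.1 c'.2 h h'
  ext <;> assumption

theorem L_ex (p : ℤ × ℤ) : ∃ c, inC (p.1 - (L c).1) (p.2 - (L c).2) := by
  obtain ⟨a, b, h⟩ := inC_exists p.1 p.2
  exact ⟨(a, b), h⟩

theorem tiling_isTiling :
    IsTiling (phys 0 (0, 0)) {Q | ∃ n < 53, ∃ z : ℤ × ℤ, Q = tile n z} := by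
  constructor
  · rintro Q ⟨n, -, z, rfl⟩
    exact phys_copy _ _
  · intro p
    obtain ⟨w, hw⟩ := L_ex p
    obtain ⟨n, hn, z, c, hc, rfl⟩ := site_ex bitK w
    refine ⟨tile n z, ⟨⟨n, hn, z, rfl⟩, (mem_tile _ _ _).2 ⟨c, hc, hw⟩⟩, ?_⟩
    rintro Q ⟨⟨n', hn', z', rfl⟩, hp⟩
    obtain ⟨c', hc', h'⟩ := (mem_tile _ _ _).1 hp
    have e := L_uniq p _ _ hw h'
    obtain ⟨rfl, rfl⟩ := site_uq bitK n n' hn hn' z z' c c' hc hc' e
    rfl

/-! ### Connectivity -/

theorem Adj.symm {a b : ℤ × ℤ} (h : Adj a b) : Adj b a := by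
  unfold Adj at *; omega

/-- a symmetric step inside `P` -/
def St (P : Finset (ℤ × ℤ)) (a b : ℤ × ℤ) : Prop := a ∈ P ∧ b ∈ P ∧ Adj a b

/-- connection inside `P` -/
def Conn (P : Finset (ℤ × ℤ)) (a b : ℤ × ℤ) : Prop := Relation.ReflTransGen (St P) a b

theorem Conn.symm {P : Finset (ℤ × ℤ)} {a b : ℤ × ℤ} (h : Conn P a b) : Conn P b a := by
  unfold Conn at *
  induction h with
  | refl => exact .refl
  | tail _ h' ih => exact Relation.ReflTransGen.head ⟨h'.2.1, h'.1, h'.2.2.symm⟩ ih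

theorem Conn.trans {P : Finset (ℤ × ℤ)} {a b c : ℤ × ℤ} (h : Conn P a b) (h' : Conn P b c) :
    Conn P a c := Relation.ReflTransGen.trans h h'

theorem Conn.step {P : Finset (ℤ × ℤ)} {a b : ℤ × ℤ} (ha : a ∈ P) (hb : b ∈ P) (h : Adj a b) :
    Conn P a b := Relation.ReflTransGen.single ⟨ha, hb, h⟩

theorem Conn.toGen {P : Finset (ℤ × ℤ)} {a b : ℤ × ℤ} (h : Conn P a b) :
    Relation.ReflTransGen (fun a b => b ∈ P ∧ Adj a b) a b := by
  unfold Conn at h
  induction h with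
  | refl => exact .refl
  | tail _ h' ih => exact ih.tail ⟨h'.2.1, h'.2.2⟩

theorem block_conn (P : Finset (ℤ × ℤ)) (u v : ℤ)
    (hP : ∀ x y : ℤ, inC x y → (x + u, y + v) ∈ P) (x y : ℤ) (h : inC x y) :
    Conn P (x + u, y + v) (u, v) := by
  have hor : ∀ k : ℕ, k < 166 → ∀ y : ℤ, 0 ≤ y → y < 166 →
      Conn P ((k : ℤ) + u, y + v) (0 + u, y + v) := by
    intro k
    induction k with
    | zero => intro _ y _ _; exact Relation.ReflTransGen.refl
    | succ k ih =>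
      intro hk y h0 h1
      refine Conn.trans (Conn.step (hP ((k + 1 : ℕ) : ℤ) y ?_) (hP (k : ℤ) y ?_)
        (Or.inr ⟨rfl, Or.inr (by push_cast; ring)⟩)) (ih (by omega) y h0 h1)
      · unfold inC; omega
      · unfold inC; omega
  have ver : ∀ k : ℕ, k < 166 → Conn P (0 + u, (k : ℤ) + v) (0 + u, 0 + v) := by
    intro k
    induction k with
    | zero => intro _; exact Relation.ReflTransGen.refl
    | succ k ih =>
      intro hk
      refine Conn.trans (Conn.step (hP 0 ((k + 1 : ℕ) : ℤ) ?_) (hP 0 (k : ℤ) ?_)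
        (Or.inl ⟨rfl, Or.inr (by push_cast; ring)⟩)) (ih (by omega))
      · unfold inC; omega
      · unfold inC; omega
  have sq : ∀ x y : ℤ, 0 ≤ x → x < 166 → 0 ≤ y → y < 166 → Conn P (x + u, y + v) (u, v) := by
    intro x y h0 h1 h2 h3
    have a := hor x.toNat (by omega) y h2 h3
    have b := ver y.toNat (by omega)
    rw [Int.toNat_of_nonneg h0] at a
    rw [Int.toNat_of_nonneg h2] at b
    have c := a.trans b
    simpa using c
  rcases h with h | ⟨rfl, rfl⟩ | ⟨rfl, rfl⟩ | ⟨rfl, rfl⟩ | ⟨rfl, rfl⟩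
  · exact sq x y h.1 h.2.1 h.2.2.1 h.2.2.2
  · exact (Conn.step (hP 166 0 (by unfold inC; omega)) (hP 165 0 (by unfold inC; omega))
      (Or.inr ⟨rfl, Or.inr (by ring)⟩)).trans (sq 165 0 (by omega) (by omega) (by omega)
        (by omega))
  · exact (Conn.step (hP 0 (-1) (by unfold inC; omega)) (hP 0 0 (by unfold inC; omega))
      (Or.inl ⟨rfl, Or.inl (by ring)⟩)).trans (sq 0 0 (by omega) (by omega) (by omega)
        (by omega))
  · exact (Conn.step (hP (-1) 165 (by unfold inC; omega)) (hP 0 165 (by unfold inC; omega))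
      (Or.inr ⟨rfl, Or.inl (by ring)⟩)).trans (sq 0 165 (by omega) (by omega) (by omega)
        (by omega))
  · exact (Conn.step (hP 165 166 (by unfold inC; omega)) (hP 165 165 (by unfold inC; omega))
      (Or.inl ⟨rfl, Or.inr (by ring)⟩)).trans (sq 165 165 (by omega) (by omega) (by omega)
        (by omega))

theorem phys_polyomino : IsPolyomino (phys 0 (0, 0)) := by
  obtain ⟨P, hPdef⟩ : ∃ P, P = phys 0 (0, 0) := ⟨_, rfl⟩
  rw [← hPdef]
  have mem : ∀ p : ℤ × ℤ, p ∈ P ↔ inC p.1 p.2 ∨ inC (p.1 - 166) (p.2 - 2) ∨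
      inC (p.1 + 2) (p.2 - 166) ∨ inC (p.1 - 164) (p.2 - 168) ∨ inC (p.1 + 168) (p.2 - 164) := by
    intro p
    rw [hPdef, mem_phys']
    simp [P0, rot]
  have h00 : ∀ x y : ℤ, inC x y → (x + 0, y + 0) ∈ P := by
    intro x y h; rw [mem]; left; simpa using h
  have h10 : ∀ x y : ℤ, inC x y → (x + 166, y + 2) ∈ P := by
    intro x y h; rw [mem]; right; left; simpa using h
  have h01 : ∀ x y : ℤ, inC x y → (x + -2, y + 166) ∈ P := by
    intro x y h; rw [mem]; right; right; left; simpa using h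
  have h11 : ∀ x y : ℤ, inC x y → (x + 164, y + 168) ∈ P := by
    intro x y h; rw [mem]; right; right; right; left; simpa using h
  have h21 : ∀ x y : ℤ, inC x y → (x + -168, y + 164) ∈ P := by
    intro x y h; rw [mem]; right; right; right; right; simpa using h
  have c10 : Conn P (166, 2) (0, 0) :=
    (Conn.step (h10 0 0 (by unfold inC; omega)) (h00 165 2 (by unfold inC; omega))
      (by unfold Adj; simp)).trans (block_conn P 0 0 h00 165 2 (by unfold inC; omega))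
  have c01 : Conn P (-2, 166) (0, 0) :=
    ((block_conn P (-2) 166 h01 2 0 (by unfold inC; omega)).symm.trans
      (Conn.step (h01 2 0 (by unfold inC; omega)) (h00 0 165 (by unfold inC; omega))
      (by unfold Adj; simp))).trans (block_conn P 0 0 h00 0 165 (by unfold inC; omega))
  have c11 : Conn P (164, 168) (0, 0) :=
    ((Conn.step (h11 0 0 (by unfold inC; omega)) (h01 165 2 (by unfold inC; omega))
      (by unfold Adj; simp)).trans
      (block_conn P (-2) 166 h01 165 2 (by unfold inC; omega))).trans c01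
  have c21 : Conn P (-168, 164) (0, 0) :=
    ((block_conn P (-168) 164 h21 165 2 (by unfold inC; omega)).symm.trans
      (Conn.step (h21 165 2 (by unfold inC; omega)) (h01 0 0 (by unfold inC; omega))
      (by unfold Adj; simp))).trans c01
  have all : ∀ p ∈ P, Conn P p (0, 0) := by
    rintro ⟨x, y⟩ hp
    rw [mem] at hp
    rcases hp with h | h | h | h | h
    · have := block_conn P 0 0 h00 x y h
      simpa using this
    · have := (block_conn P 166 2 h10 _ _ h).trans c10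
      simpa using this
    · have := (block_conn P (-2) 166 h01 _ _ h).trans c01
      simpa using this
    · have := (block_conn P 164 168 h11 _ _ h).trans c11
      simpa using this
    · have := (block_conn P (-168) 164 h21 _ _ h).trans c21
      simpa using this
  refine ⟨⟨(0, 0), ?_⟩, ?_⟩
  · have := h00 0 0 (by unfold inC; omega)
    simpa using this
  · intro p hp q hq
    exact ((all p hp).trans (all q hq).symm).toGen

/-! ### No bounded part can be closed -/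

theorem no_patch (m n : ℕ) (hn : 1 ≤ n) (S : Finset (Finset (ℤ × ℤ)))
    (hS : ∀ Q ∈ S, ∃ i < 53, ∃ z : ℤ × ℤ, Q = tile i z)
    (hF : IsFundamentalDomain n m (S.biUnion id)) : False := by
  obtain ⟨A, hAdef⟩ : ∃ A : ℕ → ℤ × ℤ → Prop, ∀ i z, A i z ↔ (i < 53 ∧ tile i z ∈ S) :=
    ⟨_, fun _ _ => Iff.rfl⟩
  have memF : ∀ p : ℤ × ℤ, p ∈ S.biUnion id ↔ ∃ i z, A i z ∧ ∃ c ∈ cK bitK i z,
      inC (p.1 - (L (sh c z)).1) (p.2 - (L (sh c z)).2) := by
    intro p
    simp only [Finset.mem_biUnion, id]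
    constructor
    · rintro ⟨Q, hQ, hp⟩
      obtain ⟨i, hi, z, rfl⟩ := hS Q hQ
      exact ⟨i, z, (hAdef _ _).2 ⟨hi, hQ⟩, (mem_tile _ _ _).1 hp⟩
    · rintro ⟨i, z, hA, h⟩
      exact ⟨tile i z, ((hAdef _ _).1 hA).2, (mem_tile _ _ _).2 h⟩
  -- the positions of the blocks
  obtain ⟨D, hD⟩ : ∃ D : Set (ℤ × ℤ), ∀ d, d ∈ D ↔ ∃ (i : ℕ) (z c k : ℤ × ℤ), A i z ∧
      c ∈ cK bitK i z ∧ d = ((L (sh c z)).1 + n * k.1, (L (sh c z)).2 + m * k.2) :=
    ⟨{d | ∃ (i : ℕ) (z c k : ℤ × ℤ), A i z ∧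
      c ∈ cK bitK i z ∧ d = ((L (sh c z)).1 + n * k.1, (L (sh c z)).2 + m * k.2)},
      fun _ => Iff.rfl⟩
  have hTil : Til D := by
    constructor
    · intro x y
      obtain ⟨k, hk, -⟩ := hF (x, y)
      simp only at hk
      rw [memF] at hk
      obtain ⟨i, z, hA, c, hc, h⟩ := hk
      refine ⟨_, (hD _).2 ⟨i, z, c, k, hA, hc, rfl⟩, ?_⟩
      simp only at h ⊢
      convert h using 1 <;> ring
    · intro x y d hd d' hd' h h'
      obtain ⟨i, z, c, k, hA, hc, rfl⟩ := (hD _).1 hd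
      obtain ⟨i', z', c', k', hA', hc', rfl⟩ := (hD _).1 hd'
      simp only at h h'
      have e1 : inC (x - n * k.1 - (L (sh c z)).1) (y - m * k.2 - (L (sh c z)).2) := by
        convert h using 1 <;> ring
      have e2 : inC (x - n * k'.1 - (L (sh c' z')).1) (y - m * k'.2 - (L (sh c' z')).2) := by
        convert h' using 1 <;> ring
      obtain ⟨k₀, -, hu⟩ := hF (x, y)
      have u1 := hu k ((memF _).2 ⟨i, z, hA, c, hc, e1⟩)
      have u2 := hu k' ((memF _).2 ⟨i', z', hA', c', hc', e2⟩)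
      have hkk : k = k' := by rw [u1, u2]
      subst hkk
      have := L_uniq (x - n * k.1, y - m * k.2) _ _ e1 e2
      rw [this]
  obtain ⟨⟨p, q⟩, hd, -⟩ := hTil.1 0 0
  obtain ⟨i, z, c, k, hA, hc, he⟩ := (hD _).1 hd
  simp only [Prod.mk.injEq] at he
  have hd1 : (p + (n : ℤ), q + 0) ∈ D := by
    refine (hD _).2 ⟨i, z, c, (k.1 + 1, k.2), hA, hc, ?_⟩
    rw [he.1, he.2]
    ext <;> simp only <;> ring
  have hd2 : (p + 0, q + (m : ℤ)) ∈ D := by
    refine (hD _).2 ⟨i, z, c, (k.1, k.2 + 1), hA, hc, ?_⟩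
    rw [he.1, he.2]
    ext <;> simp only <;> ring
  obtain ⟨a, b, h1, h2⟩ := hTil.rigid p q _ _ hd hd1
  obtain ⟨a', b', h3, h4⟩ := hTil.rigid p q _ _ hd hd2
  obtain ⟨t, ht⟩ : ∃ t : ℤ, (n : ℤ) = 13780 * t := ⟨-b, by omega⟩
  obtain ⟨t', ht'⟩ : ∃ t' : ℤ, (m : ℤ) = 13780 * t' := ⟨a', by omega⟩
  have Lg : ∀ c z k : ℤ × ℤ, L (sh c (z + gv t t' k)) =
      ((L (sh c z)).1 + n * k.1, (L (sh c z)).2 + m * k.2) := by
    intro c z k
    rw [ht, ht']
    simp only [L, sh, gv, Prod.fst_add, Prod.snd_add]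
    ext <;> simp only <;> ring
  have c00 : inC 0 0 := by unfold inC; omega
  refine no_closing A t t' (by omega) ⟨fun i z h => ((hAdef i z).1 h).1, ?_, ?_⟩
  · intro w
    obtain ⟨k, hk, -⟩ := hF (L w)
    rw [memF] at hk
    obtain ⟨i, z, hA, c, hc, h⟩ := hk
    refine ⟨k, i, z, c, hA, hc, ?_⟩
    refine L_uniq (L w) _ _ ?_ ?_
    · simpa using c00
    · rw [Lg]
      convert h using 1 <;> simp only <;> ring
  · intro w k i z c k' i' z' c' hA hc hw hA' hc' hw'
    obtain ⟨k₀, -, hu⟩ := hF (L w)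
    have u1 := hu k ((memF _).2 ⟨i, z, hA, c, hc, by
      rw [hw, Lg]; simp only; convert c00 using 1 <;> ring⟩)
    have u2 := hu k' ((memF _).2 ⟨i', z', hA', c', hc', by
      rw [hw', Lg]; simp only; convert c00 using 1 <;> ring⟩)
    rw [u1, u2]

/-- Negative answer to Grunbaum's question: there are a polyomino `P` and a tiling `T` of the
plane by copies of `P` such that for no `m, n ≥ 1` is the union of a finite subfamily of `T` a
fundamental domain of `nℤ × mℤ`. -/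
theorem result : ∃ P : Finset (ℤ × ℤ), IsPolyomino P ∧
    ∃ T : Set (Finset (ℤ × ℤ)), IsTiling P T ∧
      ∀ m n : ℕ, 1 ≤ m → 1 ≤ n → ∀ S : Finset (Finset (ℤ × ℤ)), (∀ Q ∈ S, Q ∈ T) →
        ¬ IsFundamentalDomain n m (S.biUnion id) :=
  ⟨phys 0 (0, 0), phys_polyomino, _, tiling_isTiling,
    fun m n _ hn S hS hF => no_patch m n hn S hS hF⟩

end Pool.Agent.Results.MP_df5726_co.NoToroidalPatch
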